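import Pool.Agent.N411.EC.Eight
import Pool.Agent.H126R2.NC.L3

set_option autoImplicit false
set_option linter.unusedSectionVars false

/-!
From colourings of 3-edge-connected graphs to colourings of graphs all of whose nonzero cuts have
at least three edges, and to bridgeless graphs.
-/

namespace Pool.Agent.N411.CV

open Finset
open Pool.Agent.Helper879.ECD (F2 cn f2_add_self cn_compl)
open Pool.Agent.N411.EC (TEC Col Cr cn_eq)
open Pool.Agent.H126R2.NC (TC rep rep_tc rep_eq_of_tc rep_rep cr ind_cr f2_ne)

/-- every 3-edge-connected graph has a colouring with colour set `C` -/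
def HasCol (C : Type) : Prop :=
  ∀ (W E : Type) [Fintype W] [DecidableEq W] [Fintype E] [DecidableEq E]
    (a b : E → W), TEC a b → Col C a b

lemma hasCol_eight : HasCol (Bool ⊕ (Fin 3 ⊕ Fin 3)) :=
  fun _ _ _ _ _ _ _ _ h => Pool.Agent.N411.EC.eight_tec h

variable {C : Type} {W E : Type} [Fintype W] [DecidableEq W] [Fintype E] [DecidableEq E]

/-- the colouring for graphs all of whose nonzero cuts have at least three edges -/
theorem colouring3 (hC : HasCol C) (a b : E → W)
    (h3 : ∀ X : Finset W, cn a b univ X = 0 ∨ 3 ≤ cn a b univ X) :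
    ∃ col : E → C, ∀ (X : Finset E) (γ : C), (∀ e ∈ X, col e = γ) →
      ∀ B : Finset W, cn a b (univ \ X) B ≠ 1 := by
  classical
  let st : Setoid W := Relation.EqvGen.setoid (fun x y => ∃ e, a e = x ∧ b e = y)
  let r : W → W := fun w => Quotient.out (Quotient.mk st w)
  have hr0 : ∀ w, st (r w) w := fun w => Quotient.exact (Quotient.out_eq _)
  have hr1 : ∀ w w', st w w' → r w = r w' := fun w w' h =>
    congrArg Quotient.out (Quotient.sound h)
  have hre : ∀ e, r (a e) = r (b e) := fun e => hr1 _ _ (Relation.EqvGen.rel _ _ ⟨e, rfl, rfl⟩)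
  have hrr : ∀ w, r (r w) = r w := fun w => hr1 _ _ (hr0 w)
  -- sets without crossing edges are closed
  have hcl : ∀ B : Finset W, (∀ e, a e ∈ B ↔ b e ∈ B) → ∀ w w', st w w' → (w ∈ B ↔ w' ∈ B) := by
    intro B hB w w' h
    have h3 : ∀ x y, Relation.EqvGen (fun x y => ∃ e, a e = x ∧ b e = y) x y →
        (x ∈ B ↔ y ∈ B) := by
      intro x y hxy
      induction hxy with
      | rel x y h =>
        obtain ⟨e, rfl, rfl⟩ := h
        exact hB e
      | refl x => exact Iff.rfl
      | symm x y _ ih => exact ih.symm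
      | trans x y z _ _ ih1 ih2 => exact ih1.trans ih2
    exact h3 _ _ h
  let W' := Option {w : W // r w ≠ w}
  let π : W → W' := fun w => if h : r w ≠ w then some ⟨w, h⟩ else none
  have hπ1 : ∀ w, r w = w → π w = none := fun w h => dif_neg (not_not.2 h)
  have hπ2 : ∀ w (h : r w ≠ w), π w = some ⟨w, h⟩ := fun w h => dif_pos h
  have hcn : ∀ Y : Finset W', cn (fun e => π (a e)) (fun e => π (b e)) univ Y =
      cn a b univ (univ.filter (fun w => π w ∈ Y)) := by
    intro Y
    unfold cn
    congr 1
    apply Finset.filter_congr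
    intro e _
    simp
  have key : ∀ Y : Finset W', Y.Nonempty → none ∉ Y →
      3 ≤ cn (fun e => π (a e)) (fun e => π (b e)) univ Y := by
    intro Y hY hn
    rw [hcn]
    rcases h3 (univ.filter (fun w => π w ∈ Y)) with h | h
    · exfalso
      obtain ⟨y, hy⟩ := hY
      obtain ⟨⟨w, hw⟩, rfl⟩ : ∃ w, y = some w := by
        cases y with
        | none => exact absurd hy hn
        | some w => exact ⟨w, rfl⟩
      have h4 : ∀ e, a e ∈ univ.filter (fun w => π w ∈ Y) ↔ b e ∈ univ.filter (fun w => π w ∈ Y) := by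
        intro e
        by_contra hcon
        unfold cn at h
        rw [Finset.card_eq_zero] at h
        have : e ∈ (∅ : Finset E) := by
          rw [← h]
          exact Finset.mem_filter.2 ⟨Finset.mem_univ _, hcon⟩
        simp at this
      have h5 := hcl _ h4 _ _ (hr0 w)
      rw [Finset.mem_filter, Finset.mem_filter] at h5
      have h6 := (h5.2 ⟨Finset.mem_univ _, by rw [hπ2 w hw]; exact hy⟩).2
      rw [hπ1 _ (hrr w)] at h6
      exact hn h6
    · exact h
  have htec : TEC (fun e => π (a e)) (fun e => π (b e)) := by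
    intro Y hY hY2
    by_cases hn : none ∈ Y
    · rw [← cn_compl]
      apply key
      · rw [Finset.nonempty_iff_ne_empty]
        intro h
        exact hY2 ((Finset.compl_eq_empty_iff _).1 h)
      · rw [Finset.mem_compl, not_not]; exact hn
    · exact key Y hY hn
  obtain ⟨col, hcol⟩ := hC _ _ _ _ htec
  refine ⟨col, ?_⟩
  intro X γ hX B hB
  unfold cn at hB
  obtain ⟨t, ht⟩ := Finset.card_eq_one.1 hB
  have hmem : ∀ e, (e ∉ X ∧ ¬ (a e ∈ B ↔ b e ∈ B)) ↔ e = t := by
    intro e
    have : e ∈ (univ \ X).filter (fun e => ¬ (a e ∈ B ↔ b e ∈ B)) ↔ e ∈ ({t} : Finset E) := by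
      rw [ht]
    simpa using this
  obtain ⟨htX, htB⟩ := (hmem t).2 rfl
  set ρ := r (a t) with hρ
  let B0 : Finset W := univ.filter (fun w => r w = ρ ∧ ¬ (w ∈ B ↔ ρ ∈ B))
  have hB0 : ∀ w, w ∈ B0 ↔ (r w = ρ ∧ ¬ (w ∈ B ↔ ρ ∈ B)) := fun w => by
    simp only [B0, Finset.mem_filter, Finset.mem_univ, true_and]
  have hrep : ∀ w ∈ B0, r w ≠ w := by
    intro w hw h
    rw [hB0] at hw
    apply hw.2
    rw [← hw.1, h]
  let B1 : Finset W' := univ.filter (fun y => ∃ w ∈ B0, π w = y)
  have hB1 : ∀ w, π w ∈ B1 ↔ w ∈ B0 := by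
    intro w
    simp only [B1, Finset.mem_filter, Finset.mem_univ, true_and]
    constructor
    · rintro ⟨w', hw', h⟩
      have h1 := hrep w' hw'
      rw [hπ2 w' h1] at h
      by_cases h2 : r w ≠ w
      · rw [hπ2 w h2] at h
        have h4 := Option.some.inj h
        have h5 := congrArg Subtype.val h4
        simp only at h5
        rw [← h5]; exact hw'
      · rw [hπ1 w (not_not.1 h2)] at h
        exact absurd h (by simp)
    · intro hw
      exact ⟨w, hw, rfl⟩
  have hn : none ∉ B1 := by
    simp only [B1, Finset.mem_filter, Finset.mem_univ, true_and]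
    rintro ⟨w, hw, h⟩
    rw [hπ2 w (hrep w hw)] at h
    exact absurd h (by simp)
  have hne : B1.Nonempty := by
    have h1 : a t ∈ B0 ∨ b t ∈ B0 := by
      rw [hB0, hB0]
      have h2 : r (b t) = ρ := (hre t).symm
      by_cases h3 : (a t ∈ B ↔ ρ ∈ B)
      · right
        refine ⟨h2, fun h4 => htB (h3.trans h4.symm)⟩
      · left
        exact ⟨rfl, h3⟩
    rcases h1 with h1 | h1
    · exact ⟨_, (hB1 _).2 h1⟩
    · exact ⟨_, (hB1 _).2 h1⟩
  obtain ⟨e, f, hef, h1, h2, h4, h5⟩ := hcol γ B1 hne (by
    intro h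
    exact hn (by rw [h]; exact Finset.mem_univ _))
  have hcr : ∀ e, Cr (fun e => π (a e)) (fun e => π (b e)) B1 e → ¬ (a e ∈ B ↔ b e ∈ B) := by
    intro e he hcon
    unfold Cr at he
    rw [hB1, hB1, hB0, hB0] at he
    apply he
    rw [hcon, hre e]
  have h6 := (hmem e).1 ⟨fun h => h1 (hX e h), hcr e h4⟩
  have h7 := (hmem f).1 ⟨fun h => h2 (hX f h), hcr f h5⟩
  exact hef (h6.trans h7.symm)

/-- the colouring for graphs without cuts of size one -/
theorem colouring_bridgeless (hC : HasCol C) (a b : E → W) (h1 : ∀ X : Finset W, cn a b univ X ≠ 1) :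
    ∃ col : E → C, (∀ e f, TC a b e f → col e = col f) ∧
      ∀ (X : Finset E) (γ : C), (∀ e ∈ X, col e = γ) →
        (∀ e ∈ X, ∀ f, TC a b e f → f ∈ X) →
      ∀ B : Finset W, cn a b (univ \ X) B ≠ 1 := by
  classical
  -- contraction of all edges which are not representatives
  let R : E → Prop := fun e => rep a b e = e
  let st : Setoid W := Relation.EqvGen.setoid (fun x y => ∃ e, ¬ R e ∧ a e = x ∧ b e = y)
  let W' := Quotient st
  have : Fintype W' := inferInstance
  let π : W → W' := fun w => Quotient.mk st w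
  have hπ : ∀ e, ¬ R e → π (a e) = π (b e) := by
    intro e he
    exact Quotient.sound (Relation.EqvGen.rel _ _ ⟨e, he, rfl, rfl⟩)
  -- vertex sets not crossed by non-representatives are preimages
  have hpre : ∀ B : Finset W, (∀ e, ¬ R e → ¬ cr a b B e) →
      ∃ B' : Finset W', ∀ w, π w ∈ B' ↔ w ∈ B := by
    intro B hB
    refine ⟨B.image π, ?_⟩
    intro w
    rw [Finset.mem_image]
    constructor
    · rintro ⟨w', hw', hww⟩
      have h2 : Relation.EqvGen (fun x y => ∃ e, ¬ R e ∧ a e = x ∧ b e = y) w' w :=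
        Quotient.exact hww
      have h3 : ∀ x y, Relation.EqvGen (fun x y => ∃ e, ¬ R e ∧ a e = x ∧ b e = y) x y →
          (x ∈ B ↔ y ∈ B) := by
        intro x y hxy
        induction hxy with
        | rel x y h =>
          obtain ⟨e, he, rfl, rfl⟩ := h
          exact not_not.1 (hB e he)
        | refl x => exact Iff.rfl
        | symm x y _ ih => exact ih.symm
        | trans x y z _ _ ih1 ih2 => exact ih1.trans ih2
      exact (h3 _ _ h2).1 hw'
    · intro hw
      exact ⟨w, hw, rfl⟩
  have hcn' : ∀ (M : Finset E) (Y : Finset W'), cn (fun e => π (a e)) (fun e => π (b e)) M Y =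
      cn a b M (univ.filter (fun w => π w ∈ Y)) := by
    intro M Y
    unfold cn
    congr 1
    apply Finset.filter_congr
    intro e _
    simp
  obtain ⟨col', hcol'⟩ := colouring3 hC (fun e => π (a e)) (fun e => π (b e)) (by
    intro Y
    rw [hcn']
    set B := univ.filter (fun w => π w ∈ Y) with hBdef
    have hBR : ∀ e, cr a b B e → R e := by
      intro e he
      by_contra hR
      apply he
      simp only [hBdef, Finset.mem_filter, Finset.mem_univ, true_and]
      rw [hπ e hR]
    by_contra hcon
    push Not at hcon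
    have h2 := h1 B
    have h3 : cn a b univ B = 2 := by omega
    unfold cn at h3
    obtain ⟨e, f, hef, hset⟩ := Finset.card_eq_two.1 h3
    have hmem : ∀ h, cr a b B h ↔ (h = e ∨ h = f) := by
      intro h
      have : h ∈ univ.filter (fun e => ¬ (a e ∈ B ↔ b e ∈ B)) ↔ h ∈ ({e, f} : Finset E) := by
        rw [hset]
      simpa [cr] using this
    have h4 : TC a b e f := by
      refine ⟨fun w => if w ∈ B then 1 else 0, fun h => ?_⟩
      rw [ind_cr]
      by_cases h5 : h = e
      · have h6 : h ≠ f := fun h7 => hef (h5.symm.trans h7)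
        rw [if_pos ((hmem h).2 (Or.inl h5)), if_pos h5, if_neg h6, add_zero]
      · by_cases h6 : h = f
        · rw [if_pos ((hmem h).2 (Or.inr h6)), if_neg h5, if_pos h6, zero_add]
        · rw [if_neg (fun h7 => ((hmem h).1 h7).elim h5 h6), if_neg h5, if_neg h6, add_zero]
    have h5 : R e := hBR e ((hmem e).2 (Or.inl rfl))
    have h6 : R f := hBR f ((hmem f).2 (Or.inr rfl))
    have h7 := rep_eq_of_tc h4
    apply hef
    have h8 : rep a b e = e := h5
    have h9 : rep a b f = f := h6
    rw [← h8, ← h9, h7])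
  refine ⟨fun e => col' (rep a b e), fun e f h => congrArg col' (rep_eq_of_tc h), ?_⟩
  intro X γ hX hcl B hB
  unfold cn at hB
  obtain ⟨f, hf⟩ := Finset.card_eq_one.1 hB
  have hmem : ∀ e, (e ∉ X ∧ cr a b B e) ↔ e = f := by
    intro e
    have : e ∈ (univ \ X).filter (fun e => ¬ (a e ∈ B ↔ b e ∈ B)) ↔ e ∈ ({f} : Finset E) := by
      rw [hf]
    simpa [cr] using this
  obtain ⟨hfX, hfB⟩ := (hmem f).2 rfl
  have hrfX : rep a b f ∉ X := fun h => hfX (hcl _ h f (rep_tc a b f))
  -- the new potential
  choose z hz using fun e => rep_tc a b e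
  let g : W → F2 := fun w => (if w ∈ B then 1 else 0) +
    ∑ e ∈ univ.filter (fun e => cr a b B e), z e w
  have hg : ∀ h, g (a h) + g (b h) =
      ∑ e ∈ univ.filter (fun e => cr a b B e), (if h = rep a b e then (1 : F2) else 0) := by
    intro h
    have h2 : g (a h) + g (b h) = ((if a h ∈ B then (1 : F2) else 0) + (if b h ∈ B then 1 else 0)) +
        ∑ e ∈ univ.filter (fun e => cr a b B e), (z e (a h) + z e (b h)) := by
      simp only [g]
      rw [Finset.sum_add_distrib]
      ring
    have h3 : ∑ e ∈ univ.filter (fun e => cr a b B e), (z e (a h) + z e (b h)) =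
        ∑ e ∈ univ.filter (fun e => cr a b B e), (if h = rep a b e then (1 : F2) else 0) +
        (if cr a b B h then 1 else 0) := by
      have h4 : ∀ e ∈ univ.filter (fun e => cr a b B e), (z e (a h) + z e (b h)) =
          (if h = rep a b e then (1 : F2) else 0) + (if h = e then 1 else 0) := by
        intro e _
        rw [hz e h]
      rw [Finset.sum_congr rfl h4, Finset.sum_add_distrib, Finset.sum_ite_eq]
      simp
    rw [h2, h3, ind_cr]
    rw [show (if cr a b B h then (1 : F2) else 0) +
      (∑ e ∈ univ.filter (fun e => cr a b B e), (if h = rep a b e then (1 : F2) else 0) +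
        if cr a b B h then 1 else 0) =
      ∑ e ∈ univ.filter (fun e => cr a b B e), (if h = rep a b e then (1 : F2) else 0) +
      ((if cr a b B h then 1 else 0) + (if cr a b B h then 1 else 0)) by ring, f2_add_self,
      add_zero]
  -- edges crossing the new cut
  have hg1 : ∀ h, ¬ R h → g (a h) + g (b h) = 0 := by
    intro h hR
    rw [hg]
    apply Finset.sum_eq_zero
    intro e _
    rw [if_neg]
    intro h2
    apply hR
    show rep a b h = h
    rw [h2, rep_rep]
  have hg2 : ∀ h, h ∉ X → h ≠ rep a b f → g (a h) + g (b h) = 0 := by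
    intro h hhX hne
    rw [hg]
    apply Finset.sum_eq_zero
    intro e he
    rw [Finset.mem_filter] at he
    rw [if_neg]
    intro h2
    by_cases heX : e ∈ X
    · apply hhX
      rw [h2]
      exact hcl e heX _ (rep_tc a b e).symm
    · exact hne (by rw [h2, (hmem e).1 ⟨heX, he.2⟩])
  have hg3 : g (a (rep a b f)) + g (b (rep a b f)) = 1 := by
    rw [hg, Finset.sum_eq_single f]
    · rw [if_pos rfl]
    · intro e he hne
      rw [Finset.mem_filter] at he
      rw [if_neg]
      intro h2
      by_cases heX : e ∈ X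
      · apply hrfX
        rw [h2]
        exact hcl e heX _ (rep_tc a b e).symm
      · exact hne ((hmem e).1 ⟨heX, he.2⟩)
    · intro h2
      exact absurd (Finset.mem_filter.2 ⟨Finset.mem_univ _, hfB⟩) h2
  let D : Finset W := univ.filter (fun w => g w = 1)
  have hD : ∀ e, cr a b D e ↔ g (a e) + g (b e) = 1 := by
    intro e
    simp only [D, cr, Finset.mem_filter, Finset.mem_univ, true_and]
    exact f2_ne
  obtain ⟨D', hD'⟩ := hpre D (by
    intro e he
    rw [hD, hg1 e he]
    exact zero_ne_one)
  refine hcol' (X.filter (fun e => R e)) γ ?_ D' ?_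
  · intro e he
    rw [Finset.mem_filter] at he
    have h2 : col' (rep a b e) = γ := hX e he.1
    have h3 : rep a b e = e := he.2
    rw [h3] at h2
    exact h2
  · rw [hcn']
    unfold cn
    rw [Finset.card_eq_one]
    refine ⟨rep a b f, ?_⟩
    ext e
    rw [Finset.mem_filter, Finset.mem_singleton]
    have h4 : (¬ (a e ∈ univ.filter (fun w => π w ∈ D') ↔
        b e ∈ univ.filter (fun w => π w ∈ D'))) ↔ g (a e) + g (b e) = 1 := by
      rw [← hD]
      simp only [Finset.mem_filter, Finset.mem_univ, true_and, hD']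
    rw [h4]
    constructor
    · rintro ⟨h5, h6⟩
      by_contra h7
      by_cases h8 : e ∈ X
      · have h9 : ¬ R e := by
          intro h9
          rw [Finset.mem_sdiff] at h5
          exact h5.2 (Finset.mem_filter.2 ⟨h8, h9⟩)
        rw [hg1 e h9] at h6
        exact zero_ne_one h6
      · rw [hg2 e h8 h7] at h6
        exact zero_ne_one h6
    · rintro rfl
      refine ⟨?_, hg3⟩
      rw [Finset.mem_sdiff, Finset.mem_filter]
      exact ⟨Finset.mem_univ _, fun h => hrfX h.1⟩

end Pool.Agent.N411.CV
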