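import Pool.Agent.N411.CV.Comp
import Pool.Agent.TH399.CC.Main

set_option autoImplicit false
set_option linter.unusedSectionVars false

/-!
Circuit covers of weightings whose values differ by a factor of at most about `9 / 7`, and of even
weightings whose values differ by a factor of at most `8 / 7`.
-/

namespace Pool.Agent.N411.CV

open Finset
open Pool.Agent.Helper879.ECD (F2 IsFlow f2_add_self f2_cases cn)
open Pool.Agent.H126R2.CDC (MGraph isFl_iff)
open Pool.Agent.H126R2.NC (TC rep InCone InLat InIntCone cone_lat_of_intCone cover_minus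
  bridgeless_of_cone const_of_tc countP_sum)
open Pool.Agent.TH399.CC (intCone_add intCone_sum odd_part block)

variable {V E : Type} [Fintype V] [DecidableEq V] [Fintype E] [DecidableEq E]

/-- the set of eight colours -/
abbrev C8 := Bool ⊕ (Fin 3 ⊕ Fin 3)

/-- the main construction, for even weights `2 q` -/
theorem cover_even (G : MGraph V E) (hbr : G.Bridgeless) (v : E × Bool → V)
    (hv : ∀ e, G.ends e = s(v (e, false), v (e, true))) (q : E → ℕ)
    (htc : ∀ e f, TC (fun e => v (e, false)) (fun e => v (e, true)) e f → q e = q f)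
    (hr : ∀ e f, 7 * q e + 41 ≤ 9 * q f) : InIntCone G (fun e => 2 * q e) := by
  classical
  by_cases hE : IsEmpty E
  · exact ⟨0, by simp, fun e => (hE.false e).elim⟩
  rw [not_isEmpty_iff] at hE
  obtain ⟨col, hcol1, hcol2⟩ := colouring_bridgeless hasCol_eight (fun e => v (e, false))
    (fun e => v (e, true)) (G.no_one_cut hbr v hv)
  obtain ⟨e0, -, he0⟩ := Finset.exists_max_image (univ : Finset E) q (Finset.univ_nonempty)
  obtain ⟨e1, -, he1⟩ := Finset.exists_min_image (univ : Finset E) q (Finset.univ_nonempty)
  set M := q e0 with hM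
  set μ := q e1 with hμ
  have hle0 : ∀ e, q e ≤ M := fun e => he0 e (Finset.mem_univ _)
  have hle1 : ∀ e, μ ≤ q e := fun e => he1 e (Finset.mem_univ _)
  have hMμ : 7 * M + 41 ≤ 9 * μ := hr e0 e1
  have hμM : μ ≤ M := hle0 e1
  obtain ⟨r, c, hc, hrc⟩ : ∃ r c : ℕ, c < 14 ∧ μ = 14 * r + 21 + c :=
    ⟨(μ - 21) / 14, (μ - 21) % 14, Nat.mod_lt _ (by norm_num), by omega⟩
  let u : E → ℕ := fun e => (q e - μ) / 4
  let w : E → ℕ := fun e => (q e - μ) % 4
  have hu : ∀ e, u e ≤ r := by
    intro e
    have h1 := hle0 e
    have h2 := hle1 e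
    show (q e - μ) / 4 ≤ r
    omega
  have hw : ∀ e, w e ≤ 3 := fun e => by
    show (q e - μ) % 4 ≤ 3
    omega
  have hq : ∀ e, q e = μ + 4 * u e + w e := by
    intro e
    have h2 := hle1 e
    show q e = μ + 4 * ((q e - μ) / 4) + (q e - μ) % 4
    omega
  have hutc : ∀ e f, TC (fun e => v (e, false)) (fun e => v (e, true)) e f → u e = u f := by
    intro e f h
    show (q e - μ) / 4 = (q f - μ) / 4
    rw [htc e f h]
  have hwtc : ∀ e f, TC (fun e => v (e, false)) (fun e => v (e, true)) e f → w e = w f := by
    intro e f h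
    show (q e - μ) % 4 = (q f - μ) % 4
    rw [htc e f h]
  -- the rounds with eight shifted even sets
  have hA : ∀ (t : ℕ) (γ : C8), InIntCone G (fun e =>
      if col e = γ then (if t < u e then 8 else 0) else 4) := by
    intro t γ
    obtain ⟨S, hS1, hS2⟩ := block G v hv (univ.filter (fun e => col e = γ))
      (univ.filter (fun e => t < u e)) (by
        intro e he f hef
        rw [Finset.mem_filter] at he ⊢
        exact ⟨Finset.mem_univ _, by rw [← hcol1 e f hef]; exact he.2⟩) (by
        intro e he f hef
        rw [Finset.mem_filter] at he ⊢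
        exact ⟨Finset.mem_univ _, by rw [← hutc e f hef]; exact he.2⟩) (by
        intro X' hX' hcl B
        refine hcol2 X' γ ?_ hcl B
        intro e he
        exact (Finset.mem_filter.1 (hX' he)).2)
    refine ⟨S, hS1, fun e => ?_⟩
    rw [hS2 e]
    simp only [Finset.mem_filter, Finset.mem_univ, true_and]
  -- the rounds with double covers
  have hB : ∀ (t : ℕ) (γ : C8), InIntCone G (fun e =>
      if col e = γ then (if t < w e then 2 else 0) else 2) := by
    intro t γ
    obtain ⟨S, hS1, hS2⟩ := cover_minus G v hv
      (univ.filter (fun e => col e = γ ∧ ¬ t < w e)) (by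
        apply hcol2 _ γ
        · intro e he
          exact (Finset.mem_filter.1 he).2.1
        · intro e he f hef
          rw [Finset.mem_filter] at he ⊢
          refine ⟨Finset.mem_univ _, ?_, ?_⟩
          · rw [← hcol1 e f hef]; exact he.2.1
          · rw [← hwtc e f hef]; exact he.2.2)
    refine ⟨S, hS1, fun e => ?_⟩
    rw [hS2 e]
    simp only [Finset.mem_filter, Finset.mem_univ, true_and]
    by_cases h1 : col e = γ
    · by_cases h2 : t < w e <;> simp [h1, h2]
    · simp [h1]
  have hC : InIntCone G (fun _ => 2 * c) := by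
    obtain ⟨S, hS1, hS2⟩ := G.exists_cdc hbr
    refine ⟨c • S, fun C hC => hS1 C (Multiset.mem_of_mem_nsmul hC), fun e => ?_⟩
    rw [Multiset.countP_nsmul, hS2 e]
    ring
  have hsumA : ∀ t e, ∑ γ : C8, (if col e = γ then (if t < u e then 8 else 0) else 4) =
      28 + (if t < u e then 8 else 0) := by
    intro t e
    have h1 : ∀ γ ∈ (univ : Finset (C8)),
        (if col e = γ then (if t < u e then 8 else 0) else 4) + (if col e = γ then 4 else 0) =
        4 + (if col e = γ then (if t < u e then 8 else 0) else 0) := by
      intro γ _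
      by_cases h : col e = γ <;> simp [h, add_comm]
    have h2 := Finset.sum_congr rfl h1
    rw [Finset.sum_add_distrib, Finset.sum_add_distrib, Finset.sum_ite_eq, Finset.sum_ite_eq] at h2
    simp only [Finset.mem_univ, if_true, Finset.sum_const, Finset.card_univ, Fintype.card_sum,
      Fintype.card_bool, Fintype.card_fin, smul_eq_mul] at h2
    omega
  have hsumB : ∀ t e, ∑ γ : C8, (if col e = γ then (if t < w e then 2 else 0) else 2) =
      14 + (if t < w e then 2 else 0) := by
    intro t e
    have h1 : ∀ γ ∈ (univ : Finset (C8)),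
        (if col e = γ then (if t < w e then 2 else 0) else 2) + (if col e = γ then 2 else 0) =
        2 + (if col e = γ then (if t < w e then 2 else 0) else 0) := by
      intro γ _
      by_cases h : col e = γ <;> simp [h, add_comm]
    have h2 := Finset.sum_congr rfl h1
    rw [Finset.sum_add_distrib, Finset.sum_add_distrib, Finset.sum_ite_eq, Finset.sum_ite_eq] at h2
    simp only [Finset.mem_univ, if_true, Finset.sum_const, Finset.card_univ, Fintype.card_sum,
      Fintype.card_bool, Fintype.card_fin, smul_eq_mul] at h2
    omega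
  have hcnt : ∀ (n m k : ℕ), k ≤ n → ∑ t ∈ Finset.range n, (if t < k then m else 0) = m * k := by
    intro n m k hk
    rw [← Finset.sum_filter, Finset.sum_const, smul_eq_mul, mul_comm]
    congr 1
    have h7 : (Finset.range n).filter (fun t => t < k) = Finset.range k := by
      ext t
      rw [Finset.mem_filter, Finset.mem_range, Finset.mem_range]
      omega
    rw [h7, Finset.card_range]
  have hA' := intCone_sum G (Finset.range r) _ (fun t _ =>
    intCone_sum G (univ : Finset (C8)) _ (fun γ _ => hA t γ))
  have hB' := intCone_sum G (Finset.range 3) _ (fun t _ =>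
    intCone_sum G (univ : Finset (C8)) _ (fun γ _ => hB t γ))
  refine intCone_add G (intCone_add G hA' hB' (fun e => rfl)) hC ?_
  intro e
  show 2 * q e = ∑ t ∈ Finset.range r, ∑ γ : C8,
      (if col e = γ then (if t < u e then 8 else 0) else 4) +
    ∑ t ∈ Finset.range 3, ∑ γ : C8,
      (if col e = γ then (if t < w e then 2 else 0) else 2) + 2 * c
  rw [Finset.sum_congr rfl (fun t _ => hsumA t e), Finset.sum_congr rfl (fun t _ => hsumB t e),
    Finset.sum_add_distrib, Finset.sum_add_distrib, hcnt r 8 (u e) (hu e), hcnt 3 2 (w e) (hw e),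
    Finset.sum_const, Finset.sum_const, Finset.card_range, Finset.card_range]
  simp only [smul_eq_mul]
  have h1 := hq e
  omega

/-- circuit covers for weights within a factor of about `9 / 7` -/
theorem nine_sevenths (G : MGraph V E) (p : E → ℕ) (hr : ∀ e f, 7 * p e + 91 ≤ 9 * p f) :
    InIntCone G p ↔ InCone G p ∧ InLat G p := by
  refine ⟨cone_lat_of_intCone G p, ?_⟩
  rintro ⟨h1, h2⟩
  obtain ⟨v, hv⟩ := G.exists_halves
  have hpos : ∀ e, 0 < p e := fun e => by
    have := hr e e
    omega
  have hbr := bridgeless_of_cone G p h1 hpos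
  have h3 := cover_even G hbr v hv (fun e => p e / 2)
    (fun e f hef => by
      show p e / 2 = p f / 2
      rw [const_of_tc G v hv p h1 hef])
    (fun e f => by
      have := hr e f
      show 7 * (p e / 2) + 41 ≤ 9 * (p f / 2)
      omega)
  exact intCone_add G h3 (odd_part G p h2) (fun e => (Nat.div_add_mod (p e) 2).symm)

/-- Near-constant even weights in the cone have a circuit cover. -/
theorem cover_of_cone8 (G : MGraph V E) (p : E → ℕ) (hev : ∀ e, Even (p e)) (hpos : ∀ e, 0 < p e)
    (hr : ∀ e f, 7 * p e ≤ 8 * p f) (hp : InCone G p) : InIntCone G p := by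
  classical
  by_cases hE : IsEmpty E
  · exact ⟨0, by simp, fun e => (hE.false e).elim⟩
  rw [not_isEmpty_iff] at hE
  obtain ⟨v, hv⟩ := G.exists_halves
  have hbr := bridgeless_of_cone G p hp hpos
  obtain ⟨col, hcol1, hcol2⟩ := colouring_bridgeless hasCol_eight (fun e => v (e, false))
    (fun e => v (e, true)) (G.no_one_cut hbr v hv)
  obtain ⟨e0, -, he0⟩ := Finset.exists_max_image (univ : Finset E) p
    (Finset.univ_nonempty)
  obtain ⟨e1, -, he1⟩ := Finset.exists_min_image (univ : Finset E) p
    (Finset.univ_nonempty)
  choose q hq using hev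
  have hqp : ∀ e, p e = 2 * q e := fun e => by rw [hq e]; ring
  set M := q e0 with hM
  set T := q e0 - q e1 with hT
  have hle0 : ∀ e, q e ≤ M := fun e => by
    have := he0 e (Finset.mem_univ _)
    rw [hqp, hqp] at this; omega
  have hle1 : ∀ e, q e1 ≤ q e := fun e => by
    have := he1 e (Finset.mem_univ _)
    rw [hqp, hqp] at this; omega
  have h9 : 8 * T ≤ M := by
    have := hr e0 e1
    rw [hqp, hqp] at this
    omega
  have hcov : ∀ (t : ℕ) (γ : C8), ∃ F : Multiset (Finset E),
      (∀ C ∈ F, G.IsCircuit C) ∧ ∀ e, F.countP (fun C => e ∈ C) =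
        if e ∈ univ.filter (fun e => t < M - q e ∧ col e = γ) then 0 else 2 := by
    intro t γ
    apply cover_minus G v hv
    apply hcol2 _ γ
    · intro e he
      exact (Finset.mem_filter.1 he).2.2
    · intro e he f hef
      rw [Finset.mem_filter] at he ⊢
      have h1 := const_of_tc G v hv p hp hef
      rw [hqp, hqp] at h1
      refine ⟨Finset.mem_univ _, ?_, ?_⟩
      · have := he.2.1; omega
      · rw [← hcol1 e f hef]; exact he.2.2
  choose F hF1 hF2 using hcov
  obtain ⟨F0, hF01, hF02⟩ := G.exists_cdc hbr
  refine ⟨∑ x ∈ (Finset.range T) ×ˢ (univ : Finset (C8)), F x.1 x.2 +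
    (M - 8 * T) • F0, ?_, ?_⟩
  · intro C hC
    rw [Multiset.mem_add] at hC
    rcases hC with hC | hC
    · rw [Multiset.mem_sum] at hC
      obtain ⟨c, _, hc⟩ := hC
      exact hF1 _ _ C hc
    · exact hF01 C (Multiset.mem_of_mem_nsmul hC)
  · intro e
    rw [Multiset.countP_add, countP_sum, Multiset.countP_nsmul, hF02 e]
    have h1 : ∑ x ∈ (Finset.range T) ×ˢ (univ : Finset (C8)),
        (F x.1 x.2).countP (fun C => e ∈ C) + 2 * (M - q e) = 16 * T := by
      rw [Finset.sum_product]
      dsimp only
      have h2 : ∀ t ∈ Finset.range T, ∑ γ : C8, (F t γ).countP (fun C => e ∈ C) +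
          (if t < M - q e then 2 else 0) = 16 := by
        intro t _
        have h3 : ∀ γ ∈ (univ : Finset (C8)), (F t γ).countP (fun C => e ∈ C) +
            (if γ = col e then (if t < M - q e then 2 else 0) else 0) = 2 := by
          intro γ _
          rw [hF2 t γ e]
          by_cases h4 : t < M - q e
          · by_cases h5 : γ = col e
            · subst h5; simp [h4]
            · simp [h4, h5, Ne.symm h5]
          · simp [h4]
        have h4 := Finset.sum_congr rfl h3
        rw [Finset.sum_add_distrib, Finset.sum_ite_eq'] at h4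
        simpa using h4
      have h5 := Finset.sum_congr rfl h2
      rw [Finset.sum_add_distrib, ← Finset.sum_filter, Finset.sum_const, Finset.sum_const,
        Finset.card_range] at h5
      have h6 : ((Finset.range T).filter (fun t => t < M - q e)).card = M - q e := by
        have h7 : (Finset.range T).filter (fun t => t < M - q e) = Finset.range (M - q e) := by
          ext t
          rw [Finset.mem_filter, Finset.mem_range, Finset.mem_range]
          have := hle1 e
          omega
        rw [h7, Finset.card_range]
      rw [h6] at h5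
      simp only [smul_eq_mul] at h5
      omega
    have h2 := hle0 e
    have h3 := hqp e
    have h4 : (M - 8 * T) * 2 + 16 * T = 2 * M := by omega
    omega

/-- circuit covers for even weights within a factor of `8 / 7` -/
theorem eight_sevenths (G : MGraph V E) (p : E → ℕ) (hev : ∀ e, Even (p e)) (hpos : ∀ e, 0 < p e)
    (hr : ∀ e f, 7 * p e ≤ 8 * p f) : InIntCone G p ↔ InCone G p ∧ InLat G p :=
  ⟨cone_lat_of_intCone G p, fun h => cover_of_cone8 G p hev hpos hr h.1⟩

end Pool.Agent.N411.CV
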